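import Pool.Agent.Y519.HB.Last

/-!
# Squares of decomposable forms built on few vectors

If the vectors of the squares are coloured and those of the colour `i` lie in a subspace of
dimension `d i`, then at most `∑ d i / 2` squares can be used at the same time. Superadditivity of
the Gauss–Bonnet–Chern integrand then only needs the Hopf sign of `S` on the subspaces of dimension
at least `2 (m - ∑ d i / 2)`.
-/

set_option autoImplicit false

namespace Pool.Agent.Q144.SP

open Pool.Agent.W666.GB Pool.Agent.W669.HD Pool.Agent.Y519.HB Finset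

section comp

variable {m : ℕ}

/-- dependent covectors -/
theorem Bf_zero (S : Finset (Fin m)) (v : Fin m × Bool → Fin m × Bool → ℝ)
    (h : ¬ LinearIndependent ℝ (fun q : {q : Fin m × Bool // q.1 ∉ S} => v q))
    (F : S × Bool → Fin m × Bool) : Bf S v F = 0 := by
  rw [Bf_eq_det]
  by_contra hdet
  apply h
  have h1 := Matrix.linearIndependent_rows_of_det_ne_zero hdet
  have h2 := h1.comp (fun q : {q : Fin m × Bool // q.1 ∉ S} => q.1) Subtype.val_injective
  have h3 : (fun q : {q : Fin m × Bool // q.1 ∉ S} => v q) =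
      (fun i => Mt S v (fun p j => if F p = j then 1 else 0) i) ∘
        (fun q : {q : Fin m × Bool // q.1 ∉ S} => q.1) := by
    funext q j
    change v q j = Mt S v (fun p j => if F p = j then 1 else 0) q.1 j
    rw [Mt, Matrix.of_apply, dif_neg q.2]
  rw [h3]
  exact h2

theorem gmw_zero (S : Finset (Fin m)) (v : Fin m × Bool → Fin m × Bool → ℝ)
    (h : ¬ LinearIndependent ℝ (fun q : {q : Fin m × Bool // q.1 ∉ S} => v q))
    (C : Fin m → T4 m) : gmw (wt S v) S C = 0 := by
  rw [gmw_eq_Bf]
  refine sum_eq_zero fun F _ => sum_eq_zero fun G _ => ?_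
  rw [Bf_zero S v h F, zero_mul, zero_mul]

/-- **Too many squares.** -/
theorem few_zero {κ ι : Type} [Fintype κ] [Fintype ι] (f : κ → ι) (d : ι → ℕ)
    (U : ι → Submodule ℝ (Fin m × Bool → ℝ)) (hd : ∀ i, Module.finrank ℝ (U i) ≤ d i)
    {x y : κ → Fin m × Bool → ℝ} (hx : ∀ a, x a ∈ U (f a)) (hy : ∀ a, y a ∈ U (f a))
    (S : Finset (Fin m)) (C : Fin m → T4 m) (hS : ∑ i, d i / 2 < (univ \ S).card) :
    gm (fun b => if b ∈ S then C b else Dq x y) = 0 := by
  classical
  have h1 := gm_alt (fun b => if b ∈ S then C b else Dq' x y) (univ \ S)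
  have h2 : (fun b => if b ∈ univ \ S then alt4 (if b ∈ S then C b else Dq' x y) else
      (if b ∈ S then C b else Dq' x y)) = fun b => if b ∈ S then C b else Dq x y := by
    funext b
    by_cases hb : b ∈ S
    · simp [hb]
    · simp [hb, alt4_Dq']
  rw [h2] at h1
  rw [h1, gm_Dq']
  refine mul_eq_zero_of_right _ (sum_eq_zero fun c _ => mul_eq_zero_of_right _ (gmw_zero _ _ ?_ _))
  intro hli
  -- all places outside `S` carry a square
  have hsome : ∀ b ∈ univ \ S, ∃ a, c b = some a := by
    intro b hb
    have hb' : b ∉ S := (mem_sdiff.1 hb).2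
    cases hc : c b with
    | none =>
      exfalso
      have := hli.ne_zero ⟨(b, false), hb'⟩
      apply this
      funext j
      simp [vc, hc]
    | some a => exact ⟨a, rfl⟩
  obtain ⟨⟨a₀, -⟩⟩ : Nonempty {a : κ // True} := by
    have hne : (univ \ S).Nonempty := by
      rw [← card_pos]; omega
    obtain ⟨b, hb⟩ := hne
    obtain ⟨a, -⟩ := hsome b hb
    exact ⟨⟨a, trivial⟩⟩
  set g : Fin m → κ := fun b => (c b).getD a₀ with hg
  have hcg : ∀ b ∈ univ \ S, c b = some (g b) := by
    intro b hb
    obtain ⟨a, ha⟩ := hsome b hb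
    simp [hg, ha]
  have hcard : (univ \ S).card = ∑ i, ((univ \ S).filter fun b => f (g b) = i).card :=
    card_eq_sum_card_fiberwise (fun b _ => mem_univ (f (g b)))
  have hle : ∀ i, ((univ \ S).filter fun b => f (g b) = i).card ≤ d i / 2 := by
    intro i
    set B := (univ \ S).filter fun b => f (g b) = i with hB
    -- the family indexed by `B × Bool`
    have hmem : ∀ q : B × Bool, vc x y c (q.1.1, q.2) ∈ U i := by
      intro q
      have hq := mem_filter.1 q.1.2
      have e1 := hcg _ hq.1
      simp only [vc, e1, Option.elim_some]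
      rw [← hq.2]
      split_ifs
      · exact hy _
      · exact hx _
    have hli2 : LinearIndependent ℝ (fun q : B × Bool => vc x y c (q.1.1, q.2)) := by
      have h5 := hli.comp (fun q : B × Bool =>
        (⟨(q.1.1, q.2), (mem_sdiff.1 (mem_filter.1 q.1.2).1).2⟩ :
          {q : Fin m × Bool // q.1 ∉ S})) (by
        rintro ⟨⟨b, hb⟩, β⟩ ⟨⟨b', hb'⟩, β'⟩ hqq
        simp only [Subtype.mk.injEq, Prod.mk.injEq] at hqq ⊢
        exact hqq)
      exact h5
    have hli3 : LinearIndependent ℝ (fun q : B × Bool => (⟨_, hmem q⟩ : U i)) := by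
      refine LinearIndependent.of_comp (U i).subtype ?_
      exact hli2
    have h6 := hli3.fintype_card_le_finrank
    rw [Fintype.card_prod, Fintype.card_bool, Fintype.card_coe] at h6
    have h7 := hd i
    omega
  have := sum_le_sum fun i (_ : i ∈ (univ : Finset ι)) => hle i
  omega

end comp

variable {V : Type} [NormedAddCommGroup V] [InnerProductSpace ℝ V]

/-- the coordinates -/
noncomputable def coor {m : ℕ} (e : OrthonormalBasis (Fin m × Bool) ℝ V) :
    V →ₗ[ℝ] (Fin m × Bool → ℝ) where
  toFun v i := inner ℝ v (e i)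
  map_add' v w := by funext i; simp [inner_add_left]
  map_smul' t v := by funext i; simp [inner_smul_left]

/-- **Superadditivity with few squares.** -/
theorem few_super {m : ℕ} (hm : 0 < m) (e : OrthonormalBasis (Fin m × Bool) ℝ V)
    {κ ι : Type} [Fintype κ] [Fintype ι] (f : κ → ι) (d : ι → ℕ)
    (U : ι → Submodule ℝ V) (hd : ∀ i, Module.finrank ℝ (U i) ≤ d i)
    {x y : κ → V} (hx : ∀ a, x a ∈ U (f a)) (hy : ∀ a, y a ∈ U (f a))
    {S T : V → V → V → V → ℝ} (hS : AlgCurv S)
    (hH : ∀ k < m, m ≤ k + ∑ i, d i / 2 → ∀ (E : Submodule ℝ V)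
      (e : OrthonormalBasis (Fin k × Bool) ℝ E), 0 ≤ (-1) ^ k * gbc e (fun x y z w : E => S x y z w))
    (hT : ∀ a b c d, T a b c d = - (∑ k, sqDec (x k) (y k) a b c d)) :
    (-1) ^ m * gbc e S + (-1) ^ m * gbc e T ≤ (-1) ^ m * gbc e (addT S T) := by
  classical
  have hfin : FiniteDimensional ℝ V := Module.Finite.of_basis e.toBasis
  obtain ⟨X, hX⟩ : ∃ X : κ → Fin m × Bool → ℝ, X = fun k => coor e (x k) := ⟨_, rfl⟩
  obtain ⟨Y, hY⟩ : ∃ Y : κ → Fin m × Bool → ℝ, Y = fun k => coor e (y k) := ⟨_, rfl⟩
  have hDT : ∀ _ : Fin m, cp e (negT T) = Dq X Y := by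
    intro _
    funext i j k l
    simp only [cp, negT, hT, Dq, hX, hY, sqDec, coor, LinearMap.coe_mk, AddHom.coe_mk]
    ring
  have hD : ∀ _ : Fin m, cp e (negT (addT S T)) = fun i j k l => cp e (negT S) i j k l +
      Dq X Y i j k l := by
    intro a
    funext i j k l
    have h1 := congrFun (congrFun (congrFun (congrFun (hDT a) i) j) k) l
    rw [← h1]
    simp only [cp, negT, addT]
    ring
  have hpos : ∀ S' ∈ (univ : Finset (Fin m)).powerset, S' ≠ univ →
      0 ≤ mix (cp e (negT S)) (Dq X Y) S' := by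
    intro S' _ hne
    by_cases hfew : ∑ i, d i / 2 < (univ \ S').card
    · refine le_of_eq (Eq.symm ?_)
      unfold mix
      refine few_zero f d (fun i => (U i).map (coor e)) (fun i => ?_) (fun a => ?_) (fun a => ?_) S'
        (fun _ => cp e (negT S)) hfew
      · exact (Submodule.finrank_map_le _ _).trans (hd i)
      · rw [hX]; exact Submodule.mem_map_of_mem (hx a)
      · rw [hY]; exact Submodule.mem_map_of_mem (hy a)
    · refine place_nonneg (col := fun _ : Fin m × Bool => ()) ⟨()⟩
        (fun a => ⟨(), fun _ h => absurd rfl h⟩)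
        (fun a => ⟨(), fun _ h => absurd rfl h⟩) (C := fun _ => cp e (negT S)) ?_
      intro v hv
      obtain ⟨c, z, -, hgen⟩ := gen _ S' v hv
      rw [hgen (fun _ => cp e (negT S))]
      refine mul_nonneg (sq_nonneg _) ?_
      refine EE_of_hopf e hS (U := ⊤) ?_ ?_ z
      · intro a ha y z w
        rw [Submodule.top_orthogonal_eq_bot, Submodule.mem_bot] at ha
        rw [ha]
        have := hS.smul 0 0 y z w
        simpa using this
      · intro E _ ε
        refine hH _ ?_ ?_ E ε
        · rw [Fintype.card_coe]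
          have h1 : S' ⊂ univ := Finset.ssubset_univ_iff.2 hne
          have h2 := Finset.card_lt_card h1
          rwa [card_univ, Fintype.card_fin] at h2
        · rw [Fintype.card_coe]
          have h3 := card_sdiff_add_card_eq_card (Finset.subset_univ S')
          rw [card_univ, Fintype.card_fin] at h3
          omega
  have hu : (univ : Finset (Fin m)) ∈ (univ : Finset (Fin m)).powerset :=
    Finset.mem_powerset.2 (Finset.Subset.refl _)
  have hmem : (∅ : Finset (Fin m)) ∈ (univ : Finset (Fin m)).powerset.erase univ := by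
    rw [mem_erase]
    refine ⟨?_, Finset.empty_mem_powerset _⟩
    intro h
    have : (⟨0, hm⟩ : Fin m) ∈ (∅ : Finset (Fin m)) := by rw [h]; exact mem_univ _
    exact absurd this (notMem_empty _)
  have hgm : gm (fun _ : Fin m => cp e (negT S)) + gm (fun _ : Fin m => Dq X Y) ≤
      gm (fun _ : Fin m => cp e (negT (addT S T))) := by
    rw [show (fun _ : Fin m => cp e (negT (addT S T))) = _ from funext hD,
      gm_add (m := m) (cp e (negT S)) (Dq X Y), ← Finset.add_sum_erase _ _ hu]
    have hfull : mix (cp e (negT S)) (Dq X Y) univ = gm (fun _ : Fin m => cp e (negT S)) := by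
      unfold mix
      simp only [Finset.mem_univ, if_true]
    rw [hfull]
    have h1 := Finset.single_le_sum (f := fun S' => mix (cp e (negT S)) (Dq X Y) S')
      (fun S' hS' => hpos S' (mem_of_mem_erase hS') (ne_of_mem_erase hS')) hmem
    rw [mix_empty] at h1
    linarith
  have hπ := Real.pi_pos
  have hc : 0 < 1 / ((8 * Real.pi) ^ m * (m.factorial : ℝ)) := by positivity
  rw [gbc_eq, gbc_eq, gbc_eq, ← mul_add, show (fun _ : Fin m => cp e (negT T)) = _ from funext hDT]
  exact mul_le_mul_of_nonneg_left hgm hc.le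

end Pool.Agent.Q144.SP
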