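import Pool.Agent.Q144.SP.Few
import Pool.Agent.Y489.SM.Gc

/-!
# Submanifolds of products of space forms
-/

set_option autoImplicit false

namespace Pool.Agent.Q144.SP

open Pool.Agent.W666.GB Pool.Agent.W669.HD Pool.Agent.Y519.HB Finset

variable {m : ℕ} {V W : Type} [NormedAddCommGroup V] [InnerProductSpace ℝ V]
  [NormedAddCommGroup W] [InnerProductSpace ℝ W]

/-- the Hopf sign of the extrinsic part on subspaces -/
theorem her_gauss [FiniteDimensional ℝ W] (β : V →ₗ[ℝ] V →ₗ[ℝ] W) (hs : ∀ x y, β x y = β y x)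
    (hK : ∀ x y, Pool.Agent.Y489.SM.gauss β x y x y ≤ 0) {k : ℕ}
    (hk : k ≤ 2 ∨ Module.finrank ℝ W ≤ k) (E : Submodule ℝ V)
    (ε : OrthonormalBasis (Fin k × Bool) ℝ E) :
    0 ≤ (-1) ^ k * gbc ε (fun x y z w : E => Pool.Agent.Y489.SM.gauss β x y z w) := by
  have h0 : (fun x y z w : E => Pool.Agent.Y489.SM.gauss β x y z w) =
      Pool.Agent.Y489.SM.gauss (β.compl₁₂ E.subtype E.subtype) := by
    funext x y z w
    simp [Pool.Agent.Y489.SM.gauss]
  have hs' : ∀ x y, (β.compl₁₂ E.subtype E.subtype) x y = (β.compl₁₂ E.subtype E.subtype) y x :=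
    fun x y => by
      simp only [LinearMap.compl₁₂_apply]
      exact hs _ _
  have hK' : ∀ x y, Pool.Agent.Y489.SM.gauss (β.compl₁₂ E.subtype E.subtype) x y x y ≤ 0 :=
    fun x y => by
      rw [← h0]
      exact hK _ _
  rw [h0]
  rcases hk with hk | hk
  · exact Pool.Agent.Y489.SM.small_dim hk ε (Pool.Agent.Y489.SM.gauss_curv hs') hK'
  · exact (Pool.Agent.Y489.SM.case_flat ε _ hs' hK' hk).1

/-- negative sums of squares have the Hopf sign -/
theorem squares_nonneg (e : OrthonormalBasis (Fin m × Bool) ℝ V) {κ : Type} [Fintype κ]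
    {x y : κ → V} {T : V → V → V → V → ℝ}
    (hT : ∀ a b c d, T a b c d = - (∑ k, sqDec (x k) (y k) a b c d)) :
    0 ≤ (-1) ^ m * gbc e T := by
  classical
  obtain ⟨θ⟩ : Nonempty (κ ≃ Fin (Fintype.card κ)) := ⟨Fintype.equivFin κ⟩
  refine (roundGB_nonneg (m := m) le_rfl).trans ?_
  refine cls_bound e le_rfl (Or.inl ⟨1, fun _ => ⊤, fun _ => fun _ _ _ _ => 0,
    Fintype.card κ, fun k => x (θ.symm k), fun k => y (θ.symm k), fun _ => 0, fun _ => 0,
    ⟨?_, ?_⟩, ?_, ?_, ?_, fun _ => Submodule.mem_top, fun _ => Submodule.mem_top, ?_⟩)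
  · intro i j hij
    exact absurd (Subsingleton.elim i j) hij
  · simp
  · intro _
    exact Pool.Agent.Y489.SM.zero_curv
  · intro _ _ _ _ _ _
    rfl
  · intro _ k E _ ε
    rcases Nat.eq_zero_or_pos k with hk | hk
    · subst hk
      simp [gbc]
    · have : gbc ε (fun _ _ _ _ : E => (0 : ℝ)) = 0 := by
        unfold gbc
        have : ∀ σ τ : Equiv.Perm (Fin k × Bool), ((Equiv.Perm.sign σ : ℤ) : ℝ) *
            ((Equiv.Perm.sign τ : ℤ) : ℝ) * ∏ _b : Fin k, (0 : ℝ) = 0 := by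
          intro σ τ
          rw [Finset.prod_eq_zero (Finset.mem_univ ⟨0, hk⟩) rfl, mul_zero]
        simp only [this]
        simp
      rw [this, mul_zero]
  · intro a b c d
    rw [hT, ← Equiv.sum_comp θ.symm]
    simp

variable {s : ℕ} {d : Fin s → ℕ}

/-- the curvature of the ambient product along the submanifold -/
noncomputable def ambR (c : Fin s → ℝ) (P : ∀ i, V →ₗ[ℝ] EuclideanSpace ℝ (Fin (d i)))
    (x y z w : V) : ℝ :=
  - ∑ i, c i * (inner ℝ (P i x) (P i z) * inner ℝ (P i y) (P i w) -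
    inner ℝ (P i x) (P i w) * inner ℝ (P i y) (P i z))

theorem four_sum {n : ℕ} (A B C D : EuclideanSpace ℝ (Fin n)) :
    ∑ p : Fin n × Fin n, (A p.1 * B p.2 - B p.1 * A p.2) * (C p.1 * D p.2 - D p.1 * C p.2) =
      2 * (inner ℝ A C * inner ℝ B D - inner ℝ A D * inner ℝ B C) := by
  have h : ∀ X Y : EuclideanSpace ℝ (Fin n), inner ℝ X Y = ∑ i, X i * Y i := by
    intro X Y
    rw [PiLp.inner_apply]
    exact Finset.sum_congr rfl fun i _ => by simp [mul_comm]
  have h2 : ∀ X Y X' Y' : EuclideanSpace ℝ (Fin n),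
      ∑ p : Fin n × Fin n, (X p.1 * Y p.1) * (X' p.2 * Y' p.2) =
        inner ℝ X Y * inner ℝ X' Y' := by
    intro X Y X' Y'
    rw [h, h, Finset.sum_mul_sum, Fintype.sum_prod_type]
  have h3 : ∀ p : Fin n × Fin n,
      (A p.1 * B p.2 - B p.1 * A p.2) * (C p.1 * D p.2 - D p.1 * C p.2) =
      (A p.1 * C p.1) * (B p.2 * D p.2) - (A p.1 * D p.1) * (B p.2 * C p.2) -
        (B p.1 * C p.1) * (A p.2 * D p.2) + (B p.1 * D p.1) * (A p.2 * C p.2) := by
    intro p; ring
  simp only [h3, Finset.sum_add_distrib, Finset.sum_sub_distrib, h2]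
  ring

/-- the ambient curvature is minus a sum of squares -/
theorem amb_squares [FiniteDimensional ℝ V] {c : Fin s → ℝ} (hc : ∀ i, 0 ≤ c i)
    (P : ∀ i, V →ₗ[ℝ] EuclideanSpace ℝ (Fin (d i))) :
    ∃ (x y : (Σ i, Fin (d i) × Fin (d i)) → V),
      (∀ k, x k ∈ LinearMap.range (LinearMap.adjoint (P k.1))) ∧
      (∀ k, y k ∈ LinearMap.range (LinearMap.adjoint (P k.1))) ∧
      ∀ a b a' b', ambR c P a b a' b' = - ∑ k, sqDec (x k) (y k) a b a' b' := by
  refine ⟨fun k => LinearMap.adjoint (P k.1)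
      (Real.sqrt (c k.1 / 2) • EuclideanSpace.single k.2.1 (1 : ℝ)),
    fun k => LinearMap.adjoint (P k.1) (EuclideanSpace.single k.2.2 (1 : ℝ)),
    fun k => LinearMap.mem_range_self _ _, fun k => LinearMap.mem_range_self _ _, ?_⟩
  intro a b a' b'
  unfold ambR
  rw [Fintype.sum_sigma]
  congr 1
  refine Finset.sum_congr rfl fun i _ => ?_
  have h1 := four_sum (P i a) (P i b) (P i a') (P i b')
  have h2 : c i * (inner ℝ (P i a) (P i a') * inner ℝ (P i b) (P i b') -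
      inner ℝ (P i a) (P i b') * inner ℝ (P i b) (P i a')) = (c i / 2) * (2 *
      (inner ℝ (P i a) (P i a') * inner ℝ (P i b) (P i b') -
      inner ℝ (P i a) (P i b') * inner ℝ (P i b) (P i a'))) := by ring
  rw [h2, ← h1, Finset.mul_sum]
  refine Finset.sum_congr rfl fun p _ => ?_
  have hsq : Real.sqrt (c i / 2) * Real.sqrt (c i / 2) = c i / 2 :=
    Real.mul_self_sqrt (by have := hc i; positivity)
  simp only [sqDec, LinearMap.adjoint_inner_left, real_inner_smul_left,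
    EuclideanSpace.inner_single_left, map_one, one_mul]
  generalize Real.sqrt (c i / 2) = t at hsq ⊢
  linear_combination (-((P i a) p.1 * (P i b) p.2 - (P i b) p.1 * (P i a) p.2) *
    ((P i a') p.1 * (P i b') p.2 - (P i b') p.1 * (P i a') p.2)) * hsq

/-- **Products, pointwise.** -/
theorem prod_super [FiniteDimensional ℝ W] (hm : 0 < m)
    (e : OrthonormalBasis (Fin m × Bool) ℝ V) (β : V →ₗ[ℝ] V →ₗ[ℝ] W)
    (hs : ∀ x y, β x y = β y x) (hK : ∀ x y, Pool.Agent.Y489.SM.gauss β x y x y ≤ 0)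
    {c : Fin s → ℝ} (hc : ∀ i, 0 ≤ c i) (P : ∀ i, V →ₗ[ℝ] EuclideanSpace ℝ (Fin (d i)))
    (hcod : Module.finrank ℝ W ≤ 3 ∨ Module.finrank ℝ W + ∑ i, d i / 2 ≤ m) :
    0 ≤ (-1) ^ m * gbc e (Pool.Agent.Y489.SM.gauss β) ∧ 0 ≤ (-1) ^ m * gbc e (ambR c P) ∧
    (-1) ^ m * gbc e (Pool.Agent.Y489.SM.gauss β) + (-1) ^ m * gbc e (ambR c P) ≤
      (-1) ^ m * gbc e (addT (Pool.Agent.Y489.SM.gauss β) (ambR c P)) := by
  have hfin : FiniteDimensional ℝ V := Module.Finite.of_basis e.toBasis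
  obtain ⟨x, y, hx, hy, hT⟩ := amb_squares hc P
  refine ⟨?_, squares_nonneg e hT, ?_⟩
  · have hk : m ≤ 2 ∨ Module.finrank ℝ W ≤ m := by omega
    rcases hk with hk | hk
    · exact Pool.Agent.Y489.SM.small_dim hk e (Pool.Agent.Y489.SM.gauss_curv hs) hK
    · exact (Pool.Agent.Y489.SM.case_flat e _ hs hK hk).1
  · refine few_super hm e (fun k : (Σ i, Fin (d i) × Fin (d i)) => k.1) d
      (fun i => LinearMap.range (LinearMap.adjoint (P i))) (fun i => ?_) hx hy
      (Pool.Agent.Y489.SM.gauss_curv hs) (fun k hk1 hk2 E ε => ?_) hT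
    · refine (LinearMap.finrank_range_le _).trans ?_
      simp
    · exact her_gauss β hs hK (by omega) E ε

end Pool.Agent.Q144.SP
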